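import Pool.Agent.TH970.UM.Exa
import Pool.Agent.Results.MP_1ab58f_nt.UNumbers
import Pool.Agent.W71.TwoDeg

/-! Approximation of `U`-numbers by real algebraic numbers of exact degree `n`. -/

set_option autoImplicit false

open Polynomial

namespace Pool.Agent.Results.MP_06f5ad_nt.UNumbers

/-- The naive height of an integer polynomial: the maximum of the absolute values of its
coefficients. -/
def naiveHeight (P : ℤ[X]) : ℕ := P.support.sup fun i => (P.coeff i).natAbs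

/-- Mahler's exponent `w_n(ζ)`: the supremum of the real `w` for which
`0 < |P(ζ)| ≤ H(P)^(-w)` holds for infinitely many integer polynomials of degree at most `n`. -/
noncomputable def mahlerExponent (n : ℕ) (ζ : ℝ) : EReal :=
  sSup {W : EReal | ∃ w : ℝ, W = (w : EReal) ∧
    {P : ℤ[X] | P.natDegree ≤ n ∧ 0 < |aeval ζ P| ∧
      |aeval ζ P| ≤ (naiveHeight P : ℝ) ^ (-w)}.Infinite}

/-- `ζ` is a `U_m`-number: `w_m(ζ) = ∞` and `w_{m-1}(ζ) < ∞`. -/
def IsUNumber (m : ℕ) (ζ : ℝ) : Prop :=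
  1 ≤ m ∧ mahlerExponent m ζ = ⊤ ∧ mahlerExponent (m - 1) ζ < ⊤

/-- The uniform exponent: the supremum of the real `w` such that for every sufficiently large
real `H` there is a nonzero integer polynomial `P` of degree at most `n` and height at most `H`
with `0 < |P(ζ)| ≤ H^(-w)`. -/
noncomputable def uniformExponent (n : ℕ) (ζ : ℝ) : EReal :=
  sSup {W : EReal | ∃ w : ℝ, W = (w : EReal) ∧ ∃ H₀ : ℝ, ∀ H : ℝ, H₀ ≤ H →
    ∃ P : ℤ[X], P ≠ 0 ∧ P.natDegree ≤ n ∧ (naiveHeight P : ℝ) ≤ H ∧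
      0 < |aeval ζ P| ∧ |aeval ζ P| ≤ H ^ (-w)}

/-- The exponent `w*_{=n}(ζ)`: the supremum of the real `w ≥ 0` such that
`0 < |ζ - α| ≤ H(α)^(-w-1)` holds for infinitely many real algebraic numbers `α` of degree
exactly `n`; here `α` is a root of an irreducible integer polynomial `P` of degree `n` and
`H(α) = H(P)`. -/
noncomputable def exactStar (n : ℕ) (ζ : ℝ) : EReal :=
  sSup {W : EReal | ∃ w : ℝ, W = (w : EReal) ∧ 0 ≤ w ∧
    {α : ℝ | ∃ P : ℤ[X], Irreducible P ∧ P.natDegree = n ∧ aeval α P = 0 ∧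
      0 < |ζ - α| ∧ |ζ - α| ≤ (naiveHeight P : ℝ) ^ (-w - 1)}.Infinite}

open Pool.Agent.TH970.UM Pool.Agent.W71

/-- If the uniform exponent is at most `n`, then `w*_{=n}(ζ) ≥ n`. -/
theorem star_of_uniform (n : ℕ) (hn : 1 ≤ n) (ζ : ℝ) (hζ : Transcendental ℤ ζ)
    (h : uniformExponent n ζ ≤ (n : EReal)) : (n : EReal) ≤ exactStar n ζ := by
  obtain ⟨N, rfl⟩ : ∃ N, n = N + 1 := ⟨n - 1, by omega⟩
  have hup : ∀ v : ℝ, (N : ℝ) + 1 < v → ∀ H0 : ℝ, ∃ H : ℝ, H0 ≤ H ∧ 1 ≤ H ∧ ∀ P : ℤ[X], P ≠ 0 →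
      P.natDegree ≤ N + 1 → (∀ i, |(P.coeff i : ℝ)| ≤ H) → aeval ζ P ≠ 0 →
      H ^ (-v) < |aeval ζ P| := by
    intro v hv H0
    by_contra hcon
    push Not at hcon
    have hmem : (v : EReal) ≤ uniformExponent (N + 1) ζ := by
      refine le_sSup ⟨v, rfl, max H0 1, fun H hH => ?_⟩
      obtain ⟨P, hP0, hPd, hPc, hPv, hPw⟩ := hcon H ((le_max_left _ _).trans hH)
        ((le_max_right _ _).trans hH)
      refine ⟨P, hP0, hPd, ?_, abs_pos.2 hPv, hPw⟩
      have hH1 : 1 ≤ H := (le_max_right _ _).trans hH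
      exact hgt_le_real (P := P) H (by linarith) hPc
    have h1 : (v : EReal) ≤ ((N + 1 : ℕ) : EReal) := hmem.trans h
    have h2 : (v : EReal) ≤ (((N : ℝ) + 1 : ℝ) : EReal) := by
      refine h1.trans (le_of_eq ?_)
      norm_cast
    have h3 : v ≤ (N : ℝ) + 1 := by exact_mod_cast h2
    linarith
  by_contra hlt
  push Not at hlt
  obtain ⟨r, hr1, hr2⟩ := EReal.lt_iff_exists_real_btwn.1 hlt
  have hr2' : r < (N : ℝ) + 1 := by
    have : (r : EReal) < (((N : ℝ) + 1 : ℝ) : EReal) := by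
      refine lt_of_lt_of_eq hr2 ?_
      norm_cast
    exact_mod_cast this
  have hN0 : (0 : ℝ) < (N : ℝ) + 1 := by positivity
  set w : ℝ := max r 0 with hw
  have hwN : w < (N : ℝ) + 1 := max_lt hr2' hN0
  have hmem : ((w : ℝ) : EReal) ≤ exactStar (N + 1) ζ := by
    refine le_sSup ⟨w, rfl, le_max_right _ _, ?_⟩
    apply inf_of_close _ ζ
    intro η hη
    obtain ⟨α, P, hP, hPd, hα, h1, h2⟩ := exact_approx N ζ hζ hup w (le_max_right _ _) hwN η hη
    have hne : 0 < |ζ - α| := by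
      rw [abs_pos, sub_ne_zero]
      rintro rfl
      exact hζ ⟨P, hP.ne_zero, hα⟩
    exact ⟨α, ⟨P, hP, hPd, hα, hne, h2⟩, hne, h1⟩
  have h3 : (r : EReal) ≤ ((w : ℝ) : EReal) := by
    exact_mod_cast le_max_left r 0
  exact absurd (lt_of_lt_of_le hr1 (h3.trans hmem)) (lt_irrefl _)

/-- Every transcendental real `U_m`-number `ζ` satisfies `w*_{=n}(ζ) ≥ n` for every `n ≥ 1` such
that `m` divides `n` or `n + 1`. -/
theorem result (n m : ℕ) (hn : 1 ≤ n) (ζ : ℝ) (hζ : Transcendental ℚ ζ) (hm : IsUNumber m ζ)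
    (hd : m ∣ n ∨ m ∣ n + 1) : (n : EReal) ≤ exactStar n ζ := by
  have hζ' : Transcendental ℤ ζ := by
    intro h
    exact hζ (h.extendScalars (RingHom.injective_int (algebraMap ℤ ℚ)))
  have h : uniformExponent n ζ = (n : EReal) :=
    (MP_1ab58f_nt.UNumbers.result n m hn ζ hζ hm).2.2 hd
  exact star_of_uniform n hn ζ hζ' h.le

end Pool.Agent.Results.MP_06f5ad_nt.UNumbers
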